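import Pool.Agent.Helper88.TU.Size
import Pool.Agent.Helper54.CG.EB

/-!
# Packet EB of TU: the conditions given by `d` reduced to progressions
-/

set_option autoImplicit false

open Finset Filter Topology

open scoped Classical

namespace Pool.Agent.Helper60.TU

open Pool.Agent.Helper88.TU
open Pool.Agent.Helper88.CG (tw pw th ic sg CN)
open Pool.Agent.Helper88.PP (pr Rg om Sf SS QQ)
open Pool.Agent.Helper88.RR (gg nz)
open Pool.Agent.Helper88.GM (NI XI In)
open Pool.Agent.Helper54.CG (pw_supp pw_nonneg pw_le xx Tw one_pt key xx_one xx_zero xx_range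
  mem_pr' prod_ic prod_ic_sg QQ_pos)

/-! ### The sieve -/

section sieve

variable {P : Finset ℕ} {y z E : ℕ}

/-- the points of `B` as natural numbers -/
noncomputable def im (B : Finset P) : Finset ℕ := B.image (fun i : P => (i : ℕ))

lemma hit_sub (B : Finset ℕ) (n : ℕ) : hit y z B n ⊆ pr y z := filter_subset _ _

lemma EF_nonneg (hBH : StmtBH) (hz : 2 ≤ z) {S : Finset ℕ} (hS : S ⊆ pr y z) :
    0 ≤ EF E y z S := by
  obtain ⟨-, h2, h3, -, -⟩ := hBH E y z S hz hS
  linarith

lemma AA_sub {A : Finset ℕ} (hA : A ∈ AA E y z) : A ⊆ pr y z := by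
  unfold AA at hA
  exact mem_powerset.1 (mem_filter.1 hA).1

lemma prod_xx_hit (hP : P ⊆ Icc 1 y) (B : Finset P) (n : ℕ) {A : Finset ℕ} (hA : A ⊆ pr y z) :
    ∏ p ∈ A, xx B n p = if A ⊆ hit y z (im B) n then 1 else 0 := by
  split_ifs with h
  · apply prod_eq_one
    intro p hp
    have h1 := h hp
    unfold hit at h1
    obtain ⟨h2, i, hi, h3⟩ := mem_filter.1 h1
    obtain ⟨i', hi', rfl⟩ := mem_image.1 hi
    exact xx_one hP (mem_pr' h2).1 hi' h3
  · obtain ⟨p, hp, h1⟩ := not_subset.1 h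
    apply prod_eq_zero hp
    apply xx_zero
    intro i hi h2
    apply h1
    unfold hit
    exact mem_filter.2 ⟨hA hp, i, mem_image.2 ⟨i, hi, rfl⟩, h2⟩

lemma sum_Tw (B : Finset P) (N : Finset ℕ) (w : ℕ → ℝ) (A : Finset ℕ) :
    ∑ n ∈ N, w n * ∏ p ∈ A, xx B n p = ∑ f ∈ A.pi (fun _ => B), Tw N w A f := by
  unfold Tw
  rw [sum_comm]
  apply sum_congr rfl
  intro n _
  unfold xx
  rw [prod_sum, mul_sum]

lemma hit_empty_iff (B : Finset P) (n : ℕ) :
    hit y z (im B) n = ∅ ↔ ∀ i ∈ B, Rg y z (n + (i : ℕ)) := by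
  unfold hit
  rw [filter_eq_empty_iff]
  constructor
  · intro h i hi p hp h1
    exact h hp ⟨i, mem_image.2 ⟨i, hi, rfl⟩, h1⟩
  · rintro h p hp ⟨i, hi, h1⟩
    obtain ⟨i', hi', rfl⟩ := mem_image.1 hi
    exact h i' hi' p hp h1

lemma sieve (hBH : StmtBH) (hz : 2 ≤ z) (hP : P ⊆ Icc 1 y) (B : Finset P) (N : Finset ℕ)
    (w : ℕ → ℝ) (hw : ∀ n, 0 ≤ w n) :
    |∑ n ∈ N, w n * (if ∀ i ∈ B, Rg y z (n + (i : ℕ)) then 1 else 0)
      - ∑ A ∈ AA E y z, (-1 : ℝ) ^ A.card * ∑ f ∈ A.pi (fun _ => B), Tw N w A f|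
      ≤ ∑ n ∈ N, w n * EF E y z (hit y z (im B) n) := by
  have h1 : ∑ A ∈ AA E y z, (-1 : ℝ) ^ A.card * ∑ f ∈ A.pi (fun _ => B), Tw N w A f =
      ∑ n ∈ N, w n * ∏ t ∈ range z, Ut E y z t (hit y z (im B) n) := by
    have h2 : ∀ A ∈ AA E y z, (-1 : ℝ) ^ A.card * ∑ f ∈ A.pi (fun _ => B), Tw N w A f =
        ∑ n ∈ N, w n * ((-1 : ℝ) ^ A.card * if A ⊆ hit y z (im B) n then 1 else 0) := by
      intro A hA
      rw [← sum_Tw, mul_sum]
      apply sum_congr rfl
      intro n _
      rw [prod_xx_hit hP B n (AA_sub hA)]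
      ring
    rw [sum_congr rfl h2, sum_comm]
    apply sum_congr rfl
    intro n _
    rw [← mul_sum]
    congr 1
    obtain ⟨-, -, -, h4, -⟩ := hBH E y z (hit y z (im B) n) hz (hit_sub _ _)
    rw [h4, sum_filter]
    apply sum_congr rfl
    intro A _
    split_ifs <;> simp
  rw [h1, ← sum_sub_distrib]
  refine (abs_sum_le_sum_abs _ _).trans (sum_le_sum fun n _ => ?_)
  rw [← mul_sub, abs_mul, abs_of_nonneg (hw n)]
  apply mul_le_mul_of_nonneg_left _ (hw n)
  obtain ⟨-, h2, h3, -, -⟩ := hBH E y z (hit y z (im B) n) hz (hit_sub _ _)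
  have h4 : (if ∀ i ∈ B, Rg y z (n + (i : ℕ)) then (1 : ℝ) else 0) =
      if hit y z (im B) n = ∅ then (1 : ℝ) else 0 := by
    by_cases h5 : hit y z (im B) n = ∅
    · rw [if_pos h5, if_pos ((hit_empty_iff B n).1 h5)]
    · rw [if_neg h5, if_neg (fun h6 => h5 ((hit_empty_iff B n).2 h6))]
  rw [h4, abs_le]
  constructor <;> linarith

end sieve

/-! ### The error terms -/

lemma hit_insert {x y z j n : ℕ} (hx : 0 < x) (hzx : 16 * z ≤ x) (B : Finset ℕ)
    (h : pw x (n + j) ≠ 0) : hit y z (insert j B) n = hit y z B n := by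
  obtain ⟨h1, h2, -⟩ := pw_supp hx h
  have h3 : z < n + j := by
    have : (z : ℝ) < ((n + j : ℕ) : ℝ) := by
      have : (16 * z : ℝ) ≤ x := by exact_mod_cast hzx
      linarith
    exact_mod_cast this
  unfold hit
  apply filter_congr
  intro p hp
  constructor
  · rintro ⟨i, hi, h4⟩
    rcases mem_insert.1 hi with rfl | hi
    · exfalso
      obtain ⟨-, h5, h6⟩ := mem_pr' hp
      rcases (Nat.dvd_prime h1).1 h4 with h7 | h7
      · exact h6.one_lt.ne' h7
      · omega
    · exact ⟨i, hi, h4⟩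
  · rintro ⟨i, hi, h4⟩
    exact ⟨i, mem_insert_of_mem hi, h4⟩

/-- the sum of the errors, from TL -/
lemma err_le (hBH : StmtBH) {c : ℝ} {E x y z b j : ℕ} (hz : 2 ≤ z) (hx : 0 < x)
    (hzx : 16 * z ≤ x) (B : Finset ℕ) (d' : ℕ → ℕ) (w : ℕ → ℝ)
    (hw0 : ∀ n, w n ≠ 0 → w n ≤ 1 ∧ pw x (n + j) ≠ 0 ∧ ∀ i ∈ insert j B, d' i ∣ n + i)
    (X : ℝ)
    (hTL : ∑ n ∈ (NI (x / 32) x (QQ x) b).filter (fun n => ∀ i ∈ insert j B, d' i ∣ n + i),
      EF E y z (hit y z (insert j B) n) ≤ Real.exp (-(c * E)) * X) :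
    ∑ n ∈ NI (x / 32) x (QQ x) b, w n * EF E y z (hit y z B n) ≤ Real.exp (-(c * E)) * X := by
  refine le_trans ?_ hTL
  rw [sum_filter]
  apply sum_le_sum
  intro n _
  by_cases h : w n = 0
  · rw [h, zero_mul]
    split_ifs
    · exact EF_nonneg hBH hz (hit_sub _ _)
    · exact le_rfl
  · obtain ⟨h1, h2, h3⟩ := hw0 n h
    rw [if_pos h3, hit_insert hx hzx B h2]
    have h4 : 0 ≤ EF E y z (hit y z B n) := EF_nonneg hBH hz (hit_sub _ _)
    nlinarith

/-- **Packet EB.** -/
theorem eb : StmtBH → StmtBM → StmtTL → StmtEB := by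
  intro hBH _ hTL
  obtain ⟨c, hc, E1, hTL⟩ := hTL
  obtain ⟨E2, hsize⟩ := size
  refine ⟨c / 2, by positivity, max (max E1 E2) (max ⌈2 / c⌉₊ 2), ?_⟩
  intro E z x y hE hSu b hb j hj P hP hjP d hd hdc hDz hnz
  obtain ⟨a1, a2, a3, a4, a5, a6, a7, a8, a9, a10, a11, a12, a13, a14⟩ :=
    hsize E z x y ((le_max_right _ _).trans ((le_max_left _ _).trans hE)) hSu
  have hEc : 1 ≤ c / 2 * E := by
    have h1 : 2 / c ≤ E := (Nat.le_ceil _).trans
      (by exact_mod_cast (le_max_left _ _).trans ((le_max_right _ _).trans hE))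
    rw [div_le_iff₀ hc] at h1
    linarith
  have hE2 : 2 ≤ E := (le_max_right _ _).trans ((le_max_right _ _).trans hE)
  have hTL := hTL E z x y ((le_max_left _ _).trans ((le_max_left _ _).trans hE)) hSu
    (x / 32) x (QQ x) b ⟨dvd_rfl, hb, by omega⟩
  have hz2 : 2 ≤ z := by omega
  have hx1 : 0 < x := by omega
  have hzx : 16 * z ≤ x := by
    calc 16 * z ≤ z * z := Nat.mul_le_mul_right z (by omega)
      _ = z ^ 2 := by ring
      _ ≤ z ^ E := Nat.pow_le_pow_right (by omega) hE2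
      _ ≤ x := hSu.2.1
  have hlog : Real.log x ≤ y := hSu.2.2.2.1
  rw [mem_Icc] at hj
  have hjx : (j : ℝ) ≤ x / 32 := by
    have h1 : (64 * j : ℝ) ≤ x := by exact_mod_cast (Nat.mul_le_mul_left 64 hj.2).trans a12
    have h2 : (0 : ℝ) ≤ j := Nat.cast_nonneg _
    linarith
  set N := NI (x / 32) x (QQ x) b with hN
  set D : ℕ := ∏ i : P, max 1 (d i) with hD
  have hD0 : 0 < D := prod_pos (fun i _ => lt_of_lt_of_le one_pos (le_max_left _ _))
  have hΦ0 : 0 < Nat.totient D := Nat.totient_pos.2 hD0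
  have hΦD : (Nat.totient D : ℝ) ≤ D := by exact_mod_cast Nat.totient_le D
  have hΦpos : (0 : ℝ) < (Nat.totient D : ℝ) := by exact_mod_cast hΦ0
  have hXI : 0 ≤ XI (x / 32) x (QQ x) := by unfold XI; positivity
  -- the density is nonnegative
  have hgg : 0 ≤ gg y z (nz d + 1) := by
    unfold gg
    apply prod_nonneg
    intro p hp
    obtain ⟨h1, -, h3⟩ := mem_pr' hp
    have h4 : (nz d + 1 : ℕ) ≤ p := by
      have : nz d + 1 ≤ (nz d + 1) ^ 2 := Nat.le_self_pow (by norm_num) _
      have h5 : E ≤ E ^ 2 := Nat.le_self_pow (by norm_num) _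
      omega
    have h5 : (((nz d + 1 : ℕ) : ℝ)) / p ≤ 1 := by
      apply div_le_one_of_le₀ (by exact_mod_cast h4) (Nat.cast_nonneg _)
    linarith
  have hez : ∀ i : P, ∀ p : ℕ, p.Prime → p ∣ max 1 (d i) → z < p := by
    intro i p hp h
    rcases hd i with h0 | h0
    · rw [h0] at h
      simp only [zero_le, max_eq_left, Nat.dvd_one] at h
      exact absurd h hp.one_lt.ne'
    · have h1 : d i ≠ 0 := h0.1.ne_zero
      rw [max_eq_right (Nat.one_le_iff_ne_zero.2 h1)] at h
      exact h0.2 p hp h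
  by_cases hco : Nat.Coprime (b + j) (QQ x)
  swap
  · -- no primes at all
    have hzero : ∀ d' : P → ℕ, CN x y z j N d' = 0 := by
      intro d'
      unfold CN
      apply sum_eq_zero
      intro n hn
      have h0 : pw x (n + j) = 0 := by
        by_contra h1
        obtain ⟨h2, h2', -⟩ := pw_supp hx1 h1
        apply hco
        rw [Nat.coprime_comm]
        apply Nat.coprime_of_dvd
        intro p hp h3 h4
        have hn' := mem_filter.1 hn
        have h5 : p ∣ n + j := by
          have h6 : n + j ≡ b + j [MOD p] := by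
            apply Nat.ModEq.add_right
            have h7 : n ≡ b [MOD QQ x] := by
              show n % QQ x = b % QQ x
              rw [hn'.2, Nat.mod_eq_of_lt hb]
            exact h7.of_dvd h3
          exact (h6.dvd_iff (dvd_refl p)).2 h4
        rcases (Nat.dvd_prime h2).1 h5 with h6 | h6
        · exact hp.one_lt.ne' h6
        · have h7 : p ≤ ⌊Real.log x / 20⌋₊ := hp.dvd_primorial_iff.1 h3
          have h8 : 0 ≤ Real.log (x : ℝ) := Real.log_natCast_nonneg x
          have h9 : ((⌊Real.log x / 20⌋₊ : ℕ) : ℝ) ≤ Real.log x / 20 :=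
            Nat.floor_le (by positivity)
          have h10 : (p : ℝ) ≤ y := by
            have : (p : ℝ) ≤ ((⌊Real.log x / 20⌋₊ : ℕ) : ℝ) := by exact_mod_cast h7
            linarith
          have h11 : (y : ℝ) ≤ z := by exact_mod_cast a9
          have h12 : (16 * z : ℝ) ≤ x := by exact_mod_cast hzx
          rw [← h6] at h2'
          linarith
      rw [h0, zero_mul]
    refine ⟨fun _ => 1, fun A _ => Nat.coprime_one_left _, ?_⟩
    rw [hzero, hzero, zero_div, sub_zero, abs_zero]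
    apply add_nonneg
    · apply sum_nonneg
      intro A _
      positivity
    · positivity
  · set B : Finset P := univ.filter (fun i : P => d i ≠ 0) with hB
    have hk : nz d = B.card := rfl
    set w1 : ℕ → ℝ := fun n => pw x (n + j) *
      (if ∀ i : P, max 1 (d i) ∣ n + (i : ℕ) then 1 else 0) with hw1
    set w2 : ℕ → ℝ := fun n => pw x (n + j) with hw2
    have hkey : ∀ A : Finset ℕ, A ⊆ pr y z → ∀ f : (∀ p ∈ A, P), _ := fun A hA f =>
      key hx1 hlog a9 hb hj hjx hP hjP hd hdc hco hA f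
    have hCN1 : CN x y z j N d =
        ∑ n ∈ N, w1 n * (if ∀ i ∈ B, Rg y z (n + (i : ℕ)) then 1 else 0) := by
      unfold CN
      apply sum_congr rfl
      intro n _
      rw [prod_ic, hw1, mul_assoc]
    have hCN2 : CN x y z j N (fun i => sg (d i)) =
        ∑ n ∈ N, w2 n * (if ∀ i ∈ B, Rg y z (n + (i : ℕ)) then 1 else 0) := by
      unfold CN
      apply sum_congr rfl
      intro n _
      rw [prod_ic_sg]
    have hw1' : ∀ n, 0 ≤ w1 n := by
      intro n
      apply mul_nonneg (pw_nonneg _ _)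
      split_ifs <;> norm_num
    have hw2' : ∀ n, 0 ≤ w2 n := fun n => pw_nonneg _ _
    have e1 := sieve (E := E) hBH hz2 hP B N w1 hw1'
    have e2 := sieve (E := E) hBH hz2 hP B N w2 hw2'
    rw [← hCN1] at e1
    rw [← hCN2] at e2
    -- the worst functions
    have ha : ∀ A : Finset ℕ, ∃ a : ℕ, A ⊆ pr y z → (Nat.Coprime a (QQ x * (∏ p ∈ A, p) * D) ∧
        ∀ f ∈ A.pi (fun _ => B), |Tw N w1 A f - Tw N w2 A f / (Nat.totient D : ℝ)| ≤
          |th x (QQ x * (∏ p ∈ A, p) * D) a - th x (QQ x * ∏ p ∈ A, p) a /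
            (Nat.totient D : ℝ)|) := by
      intro A
      by_cases hA : A ⊆ pr y z
      · by_cases hne : (A.pi (fun _ => B)).Nonempty
        · obtain ⟨f0, hf0, hmax⟩ := exists_max_image (A.pi (fun _ => B))
            (fun f => |Tw N w1 A f - Tw N w2 A f / (Nat.totient D : ℝ)|) hne
          obtain ⟨a, h1, h2, h3, -, -⟩ := hkey A hA f0
          refine ⟨a, fun _ => ⟨h1, fun f hf => ?_⟩⟩
          have h4 := hmax f hf
          rw [← h2, ← h3]
          exact h4
        · refine ⟨1, fun _ => ⟨Nat.coprime_one_left _, fun f hf => ?_⟩⟩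
          exact absurd ⟨f, hf⟩ hne
      · exact ⟨1, fun h => absurd h hA⟩
    choose a ha using ha
    refine ⟨a, fun A hA => (ha A (AA_sub hA)).1, ?_⟩
    -- the main difference
    have e3 : |∑ A ∈ AA E y z, (-1 : ℝ) ^ A.card * ∑ f ∈ A.pi (fun _ => B), Tw N w1 A f -
        (∑ A ∈ AA E y z, (-1 : ℝ) ^ A.card * ∑ f ∈ A.pi (fun _ => B), Tw N w2 A f) /
          (Nat.totient D : ℝ)| ≤
        ∑ A ∈ AA E y z, (nz d : ℝ) ^ A.card *
          |th x (QQ x * (∏ p ∈ A, p) * D) (a A) - th x (QQ x * ∏ p ∈ A, p) (a A) /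
            (Nat.totient D : ℝ)| := by
      rw [sum_div, ← sum_sub_distrib]
      refine (abs_sum_le_sum_abs _ _).trans (sum_le_sum fun A hA => ?_)
      have h1 : (-1 : ℝ) ^ A.card * ∑ f ∈ A.pi (fun _ => B), Tw N w1 A f -
          (-1 : ℝ) ^ A.card * (∑ f ∈ A.pi (fun _ => B), Tw N w2 A f) / (Nat.totient D : ℝ) =
          (-1) ^ A.card * ∑ f ∈ A.pi (fun _ => B),
            (Tw N w1 A f - Tw N w2 A f / (Nat.totient D : ℝ)) := by
        rw [sum_sub_distrib, ← sum_div]
        ring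
      rw [h1, abs_mul, abs_pow, abs_neg, abs_one, one_pow, one_mul]
      refine (abs_sum_le_sum_abs _ _).trans ?_
      refine (sum_le_sum (fun f hf => (ha A (AA_sub hA)).2 f hf)).trans (le_of_eq ?_)
      rw [sum_const, card_pi, prod_const, nsmul_eq_mul, hk]
      push_cast
      rfl
    -- the points
    have hjB : j ∉ im B := by
      intro h
      obtain ⟨i, -, h1⟩ := mem_image.1 h
      exact hjP (h1 ▸ i.2)
    have hBcard : (insert j (im B)).card = nz d + 1 := by
      rw [card_insert_of_notMem hjB]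
      unfold im
      rw [card_image_of_injective _ Subtype.val_injective, hk]
    have hBsub : insert j (im B) ⊆ Icc 1 y := by
      intro i hi
      rcases mem_insert.1 hi with rfl | hi
      · exact mem_Icc.2 hj
      · obtain ⟨i', -, rfl⟩ := mem_image.1 hi
        exact hP i'.2
    have hBk : (insert j (im B)).card ^ 2 ≤ E := by
      rw [hBcard]
      exact hnz
    have hSf1 : Sf z 1 := ⟨squarefree_one, fun p hp h => absurd (Nat.dvd_one.1 h) hp.ne_one⟩
    -- first error
    set d1 : ℕ → ℕ := fun i => if h : i ∈ P then max 1 (d ⟨i, h⟩) else 1 with hd1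
    have hd1P : ∀ i : P, d1 (i : ℕ) = max 1 (d i) := by
      intro i
      simp only [hd1]
      rw [dif_pos i.2]
    have hd1j : d1 j = 1 := by
      simp only [hd1]
      rw [dif_neg hjP]
    have hprodD : ∀ {M : Type} [CommMonoid M] (g : ℕ → M), g 1 = 1 →
        ∏ i ∈ insert j (im B), g (d1 i) = ∏ i : P, g (max 1 (d i)) := by
      intro M _ g hg
      rw [prod_insert hjB, hd1j, hg, one_mul]
      unfold im
      rw [prod_image (fun a _ b _ h => Subtype.val_injective h)]
      have h1 : ∏ i ∈ B, g (d1 (i : ℕ)) = ∏ i ∈ B, g (max 1 (d i)) :=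
        prod_congr rfl (fun i _ => by rw [hd1P])
      rw [h1]
      apply prod_subset (subset_univ _)
      intro i _ hi
      have h2 : d i = 0 := by
        by_contra h3
        exact hi (mem_filter.2 ⟨mem_univ _, h3⟩)
      rw [h2]
      simpa using hg
    have hTL1 := (hTL (insert j (im B)) hBsub hBk d1 (by
      intro i hi
      rcases mem_insert.1 hi with rfl | hi
      · rw [hd1j]; exact hSf1
      · obtain ⟨i', hi', rfl⟩ := mem_image.1 hi
        have h1 : d i' ≠ 0 := (mem_filter.1 hi').2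
        rw [hd1P, max_eq_right (Nat.one_le_iff_ne_zero.2 h1)]
        rcases hd i' with h2 | h2
        · exact absurd h2 h1
        · exact h2) (by
      have h1 := hprodD (fun m => m) rfl
      rw [h1]
      refine hDz.trans (Nat.pow_le_pow_right (by omega) (by omega)))).1 (by
      intro i hi i' hi' hne
      rcases mem_insert.1 hi with rfl | hi
      · rw [hd1j]; exact Nat.coprime_one_left _
      · rcases mem_insert.1 hi' with rfl | hi'
        · rw [hd1j]; exact Nat.coprime_one_right _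
        · obtain ⟨s, hs, rfl⟩ := mem_image.1 hi
          obtain ⟨s', hs', rfl⟩ := mem_image.1 hi'
          have h1 : d s ≠ 0 := (mem_filter.1 hs).2
          have h2 : d s' ≠ 0 := (mem_filter.1 hs').2
          rw [hd1P, hd1P, max_eq_right (Nat.one_le_iff_ne_zero.2 h1),
            max_eq_right (Nat.one_le_iff_ne_zero.2 h2)]
          exact hdc s s' (fun h => hne (by rw [h])) h1 h2)
    have hTL2 := (hTL (insert j (im B)) hBsub hBk (fun _ => 1) (fun _ _ => hSf1) (by
      rw [prod_const_one]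
      exact Nat.one_le_pow _ _ (by omega))).1 (fun _ _ _ _ _ => Nat.coprime_one_left _)
    have f1 := err_le (E := E) (b := b) hBH hz2 hx1 hzx (im B) d1 w1 (by
      intro n hn
      have h1 : pw x (n + j) ≠ 0 := left_ne_zero_of_mul hn
      have h2 := right_ne_zero_of_mul hn
      have h3 : ∀ i : P, max 1 (d i) ∣ n + (i : ℕ) := by
        by_contra h4
        exact h2 (if_neg h4)
      refine ⟨?_, h1, ?_⟩
      · simp only [hw1]
        rw [if_pos h3, mul_one]
        exact pw_le hx1 _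
      · intro i hi
        rcases mem_insert.1 hi with rfl | hi
        · rw [hd1j]; exact one_dvd _
        · obtain ⟨s, -, rfl⟩ := mem_image.1 hi
          rw [hd1P]
          exact h3 s) _ hTL1.2
    have f2 := err_le (E := E) (b := b) hBH hz2 hx1 hzx (im B) (fun _ => 1) w2 (by
      intro n hn
      exact ⟨pw_le hx1 _, hn, fun _ _ => one_dvd _⟩) _ hTL2.2
    have hprodR : ∏ i ∈ insert j (im B), (1 / (d1 i : ℝ)) = 1 / (D : ℝ) := by
      have h1 := hprodD (fun m => (1 / (m : ℝ))) (by norm_num)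
      rw [h1, hD, Nat.cast_prod, prod_div_distrib, prod_const_one]
    rw [hBcard, hprodR] at f1
    rw [hBcard] at f2
    simp only [Nat.cast_one, div_one, prod_const_one, mul_one] at f2
    set X := XI (x / 32) x (QQ x) with hX
    set g := gg y z (nz d + 1) with hg
    have hexp : 2 * Real.exp (-(c * E)) ≤ Real.exp (-(c / 2 * E)) := by
      have h1 : Real.exp (-(c * E)) = Real.exp (-(c / 2 * E)) * Real.exp (-(c / 2 * E)) := by
        rw [← Real.exp_add]
        ring_nf
      have h2 : Real.exp (-(c / 2 * E)) ≤ 1 / 2 := by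
        rw [Real.exp_neg, inv_eq_one_div]
        apply one_div_le_one_div_of_le (by norm_num)
        have := Real.add_one_le_exp (c / 2 * (E : ℝ))
        linarith
      rw [h1]
      nlinarith [Real.exp_pos (-(c / 2 * (E : ℝ)))]
    have hXg : 0 ≤ X * g := mul_nonneg hXI hgg
    have f1' : ∑ n ∈ N, w1 n * EF E y z (hit y z (im B) n) ≤
        Real.exp (-(c * E)) * (X * g / (Nat.totient D : ℝ)) := by
      refine f1.trans ?_
      apply mul_le_mul_of_nonneg_left _ (Real.exp_pos _).le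
      calc X * (g * (1 / (D : ℝ))) = X * g / D := by ring
        _ ≤ X * g / (Nat.totient D : ℝ) := div_le_div_of_nonneg_left hXg hΦpos hΦD
    have f2' : (∑ n ∈ N, w2 n * EF E y z (hit y z (im B) n)) / (Nat.totient D : ℝ) ≤
        Real.exp (-(c * E)) * (X * g / (Nat.totient D : ℝ)) := by
      calc (∑ n ∈ N, w2 n * EF E y z (hit y z (im B) n)) / (Nat.totient D : ℝ)
          ≤ (Real.exp (-(c * E)) * (X * g)) / (Nat.totient D : ℝ) :=
            div_le_div_of_nonneg_right f2 hΦpos.le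
        _ = _ := by ring
    have e8 : |(CN x y z j N (fun i => sg (d i)) -
        ∑ A ∈ AA E y z, (-1 : ℝ) ^ A.card * ∑ f ∈ A.pi (fun _ => B), Tw N w2 A f) /
          (Nat.totient D : ℝ)| ≤
        (∑ n ∈ N, w2 n * EF E y z (hit y z (im B) n)) / (Nat.totient D : ℝ) := by
      rw [abs_div, abs_of_pos hΦpos]
      exact div_le_div_of_nonneg_right e2 hΦpos.le
    have e9 : CN x y z j N d - CN x y z j N (fun i => sg (d i)) / (Nat.totient D : ℝ) =
        (CN x y z j N d -
          ∑ A ∈ AA E y z, (-1 : ℝ) ^ A.card * ∑ f ∈ A.pi (fun _ => B), Tw N w1 A f) +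
        (∑ A ∈ AA E y z, (-1 : ℝ) ^ A.card * ∑ f ∈ A.pi (fun _ => B), Tw N w1 A f -
          (∑ A ∈ AA E y z, (-1 : ℝ) ^ A.card * ∑ f ∈ A.pi (fun _ => B), Tw N w2 A f) /
            (Nat.totient D : ℝ)) -
        (CN x y z j N (fun i => sg (d i)) -
          ∑ A ∈ AA E y z, (-1 : ℝ) ^ A.card * ∑ f ∈ A.pi (fun _ => B), Tw N w2 A f) /
            (Nat.totient D : ℝ) := by
      ring
    rw [e9]
    have e10 : ∀ u v w : ℝ, |u + v - w| ≤ |u| + |v| + |w| := by
      intro u v w
      calc |u + v - w| ≤ |u + v| + |w| := abs_sub _ _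
        _ ≤ _ := by linarith [abs_add_le u v]
    refine (e10 _ _ _).trans ?_
    have hY : 0 ≤ X * g / (Nat.totient D : ℝ) := div_nonneg hXg hΦpos.le
    have e12 : 2 * Real.exp (-(c * E)) * (X * g / (Nat.totient D : ℝ)) ≤
        Real.exp (-(c / 2 * E)) * (X * g / (Nat.totient D : ℝ)) :=
      mul_le_mul_of_nonneg_right hexp hY
    linarith

end Pool.Agent.Helper60.TU
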